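import Mathlib

/-!
Sequential compactness for pairwise nested sets of measure bounded away from zero and one.
-/

open Set Filter Topology MeasureTheory

namespace Pool.Agent.H96.NSx

variable {α : Type*} [MeasurableSpace α] (μ : Measure α) [IsProbabilityMeasure μ]

/-- nested modulo null sets -/
def Nst (X Y : Set α) : Prop :=
  μ (X \ Y) = 0 ∨ μ (Y \ X) = 0 ∨ μ (X ∩ Y) = 0 ∨ μ (X ∪ Y)ᶜ = 0

variable {μ}

theorem few {c : ℝ} (hc : 0 < c) (X : ℕ → Set α) (hm : ∀ n, MeasurableSet (X n))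
    (h1 : ∀ n, c ≤ μ.real (X n)) (S : Set ℕ) (hS : S.Infinite)
    (hd : ∀ i ∈ S, ∀ j ∈ S, i ≠ j → μ (X i ∩ X j) = 0) : False := by
  obtain ⟨n, hn⟩ := exists_nat_gt (1 / c)
  obtain ⟨T, hT, hTc⟩ := hS.exists_subset_card_eq n
  have h2 : ∑ i ∈ T, μ (X i) ≤ μ univ := by
    refine sum_measure_le_measure_univ (fun i _ => (hm i).nullMeasurableSet) ?_
    intro i hi j hj hij
    exact hd i (hT hi) j (hT hj) hij
  rw [measure_univ] at h2
  have h3 : ∑ i ∈ T, μ.real (X i) ≤ 1 := by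
    have h4 := ENNReal.toReal_mono ENNReal.one_ne_top h2
    rw [ENNReal.toReal_sum (fun i _ => measure_ne_top μ _), ENNReal.toReal_one] at h4
    exact h4
  have h5 : (n : ℝ) * c ≤ ∑ i ∈ T, μ.real (X i) := by
    calc (n : ℝ) * c = ∑ i ∈ T, c := by rw [Finset.sum_const, hTc, nsmul_eq_mul]
      _ ≤ _ := Finset.sum_le_sum fun i _ => h1 i
  rw [div_lt_iff₀ hc] at hn
  linarith

theorem mono_lim (X : ℕ → Set α) (hm : ∀ n, MeasurableSet (X n))
    (h : ∀ m n, m < n → μ (X m \ X n) = 0) :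
    Tendsto (fun n => μ.real (symmDiff (X n) (⋃ n, X n))) atTop (𝓝 0) := by
  set Y : Set α := ⋃ n, X n with hY
  have hYm : MeasurableSet Y := MeasurableSet.iUnion hm
  set Z : ℕ → Set α := fun n => ⋃ m ∈ Iic n, X m with hZ
  have hZm : ∀ n, MeasurableSet (Z n) := fun n =>
    MeasurableSet.biUnion (to_countable _) fun i _ => hm i
  have hZmono : Monotone Z := by
    intro a b hab
    exact biUnion_mono (Iic_subset_Iic.2 hab) fun _ _ => le_rfl
  have hZY : ⋃ n, Z n = Y := by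
    apply subset_antisymm
    · exact iUnion_subset fun n => iUnion₂_subset fun m _ => subset_iUnion X m
    · refine iUnion_subset fun n => ?_
      exact (subset_biUnion_of_mem (u := fun m => X m) (mem_Iic.2 (le_refl n))).trans
        (subset_iUnion Z n)
  have h1 : Tendsto (fun n => μ (Y \ Z n)) atTop (𝓝 0) := by
    have h2 : Tendsto (fun n => μ (Y \ Z n)) atTop (𝓝 (μ (⋂ n, Y \ Z n))) := by
      refine tendsto_measure_iInter_atTop (fun n => (hYm.diff (hZm n)).nullMeasurableSet) ?_ ?_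
      · intro a b hab
        exact diff_subset_diff_right (hZmono hab)
      · exact ⟨0, measure_ne_top μ _⟩
    have h3 : (⋂ n, Y \ Z n) = ∅ := by
      rw [← diff_iUnion, hZY, diff_self]
    rwa [h3, measure_empty] at h2
  have h4 : ∀ n, μ (Z n \ X n) = 0 := by
    intro n
    have h5 : Z n \ X n ⊆ ⋃ m ∈ Iic n, (X m \ X n) := by
      rintro x ⟨hx, hx'⟩
      obtain ⟨m, hm', hxm⟩ := mem_iUnion₂.1 hx
      exact mem_iUnion₂.2 ⟨m, hm', hxm, hx'⟩
    refine measure_mono_null h5 ((measure_biUnion_null_iff (to_countable _)).2 ?_)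
    intro m hm'
    rcases (mem_Iic.1 hm').lt_or_eq with h6 | h6
    · exact h m n h6
    · rw [h6, diff_self, measure_empty]
  have h7 : ∀ n, μ (symmDiff (X n) Y) ≤ μ (Y \ Z n) := by
    intro n
    have h8 : symmDiff (X n) Y ⊆ (Y \ Z n) ∪ (Z n \ X n) := by
      rintro x (⟨hx, hx'⟩ | ⟨hx, hx'⟩)
      · exact (hx' (mem_iUnion.2 ⟨n, hx⟩)).elim
      · by_cases hz : x ∈ Z n
        · exact Or.inr ⟨hz, hx'⟩
        · exact Or.inl ⟨hx, hz⟩
    calc μ (symmDiff (X n) Y) ≤ μ ((Y \ Z n) ∪ (Z n \ X n)) := measure_mono h8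
      _ ≤ μ (Y \ Z n) + μ (Z n \ X n) := measure_union_le _ _
      _ = μ (Y \ Z n) := by rw [h4, add_zero]
  have h9 : Tendsto (fun n => μ (symmDiff (X n) Y)) atTop (𝓝 0) :=
    tendsto_of_tendsto_of_tendsto_of_le_of_le tendsto_const_nhds h1
      (fun n => zero_le) h7
  have h10 := (ENNReal.tendsto_toReal ENNReal.zero_ne_top).comp h9
  exact h10

theorem symm_compl (A B : Set α) : symmDiff Aᶜ Bᶜ = symmDiff A B := by
  ext x
  simp only [mem_symmDiff, mem_compl_iff]
  tauto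

theorem subseq {c : ℝ} (hc : 0 < c) (X : ℕ → Set α) (hm : ∀ n, MeasurableSet (X n))
    (h1 : ∀ n, c ≤ μ.real (X n)) (h2 : ∀ n, c ≤ μ.real (X n)ᶜ)
    (hn : ∀ i j, Nst μ (X i) (X j)) :
    ∃ φ : ℕ → ℕ, StrictMono φ ∧ ∃ Y, MeasurableSet Y ∧
      Tendsto (fun n => μ.real (symmDiff (X (φ n)) Y)) atTop (𝓝 0) := by
  have hpos : ∀ A : Set α, c ≤ μ.real A → μ A ≠ 0 := by
    intro A hA h0
    rw [measureReal_def, h0, ENNReal.toReal_zero] at hA
    linarith
  let r : Set α → Set α → Prop := fun A B => μ (A \ B) = 0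
  have hr : ∀ A B C, r A B → r B C → r A C := by
    intro A B C hAB hBC
    refine measure_mono_null (t := (A \ B) ∪ (B \ C)) ?_ (measure_union_null hAB hBC)
    rintro x ⟨hx, hx'⟩
    by_cases hB : x ∈ B
    · exact Or.inr ⟨hB, hx'⟩
    · exact Or.inl ⟨hx, hB⟩
  haveI : IsTrans (Set α) r := ⟨hr⟩
  haveI : IsTrans (Set α) (flip r) := ⟨fun A B C h h' => hr C B A h' h⟩
  obtain ⟨g, hg | hg⟩ := exists_increasing_or_nonincreasing_subseq r X
  · refine ⟨g, g.strictMono, ⋃ n, X (g n), MeasurableSet.iUnion fun n => hm _, ?_⟩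
    exact mono_lim (fun n => X (g n)) (fun n => hm _) hg
  obtain ⟨k, hk | hk⟩ := exists_increasing_or_nonincreasing_subseq (flip r) (fun n => X (g n))
  · refine ⟨fun n => g (k n), g.strictMono.comp k.strictMono, (⋃ n, (X (g (k n)))ᶜ)ᶜ,
      (MeasurableSet.iUnion fun n => (hm _).compl).compl, ?_⟩
    have h3 := mono_lim (μ := μ) (fun n => (X (g (k n)))ᶜ) (fun n => (hm _).compl) ?_
    · refine h3.congr fun n => ?_
      rw [← symm_compl, compl_compl]
    · intro m n hmn
      have h4 : (X (g (k m)))ᶜ \ (X (g (k n)))ᶜ = X (g (k n)) \ X (g (k m)) := by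
        ext x
        simp only [mem_diff, mem_compl_iff, not_not]
        tauto
      rw [h4]
      exact hk m n hmn
  · exfalso
    set Z : ℕ → Set α := fun n => X (g (k n)) with hZ
    have hZ1 : ∀ m n, m ≠ n → μ (Z m ∩ Z n) = 0 ∨ μ (Z m ∪ Z n)ᶜ = 0 := by
      have key : ∀ m n, m < n → μ (Z m ∩ Z n) = 0 ∨ μ (Z m ∪ Z n)ᶜ = 0 := by
        intro m n hmn
        have h3 : ¬ r (Z m) (Z n) := hg _ _ (k.strictMono hmn)
        have h4 : ¬ r (Z n) (Z m) := hk m n hmn
        rcases hn (g (k m)) (g (k n)) with h | h | h | h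
        · exact absurd h h3
        · exact absurd h h4
        · exact Or.inl h
        · exact Or.inr h
      intro m n hmn
      rcases lt_or_gt_of_ne hmn with h | h
      · exact key m n h
      · rw [inter_comm, union_comm]
        exact key n m h
    by_cases hinf : {n | μ (Z 0 ∩ Z n) = 0}.Infinite
    · refine few hc Z (fun n => hm _) (fun n => h1 _) _ hinf ?_
      intro i hi j hj hij
      rcases hZ1 i j hij with h | h
      · exact h
      · exfalso
        refine hpos (Z 0) (h1 _) ?_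
        refine measure_mono_null (t := (Z 0 ∩ Z i) ∪ (Z 0 ∩ Z j) ∪ (Z i ∪ Z j)ᶜ) ?_
          (measure_union_null (measure_union_null hi hj) h)
        intro x hx
        by_cases hxi : x ∈ Z i
        · exact Or.inl (Or.inl ⟨hx, hxi⟩)
        · by_cases hxj : x ∈ Z j
          · exact Or.inl (Or.inr ⟨hx, hxj⟩)
          · exact Or.inr fun h => h.elim hxi hxj
    · have hinf2 : ({n | μ (Z 0 ∩ Z n) = 0}ᶜ \ {0}).Infinite := by
        have h3 : ({n | μ (Z 0 ∩ Z n) = 0}ᶜ : Set ℕ).Infinite :=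
          (not_infinite.1 hinf).infinite_compl
        exact h3.diff (finite_singleton 0)
      refine few hc (fun n => (Z n)ᶜ) (fun n => (hm _).compl) (fun n => h2 _) _ hinf2 ?_
      have hco : ∀ i ∈ ({n | μ (Z 0 ∩ Z n) = 0}ᶜ \ {0} : Set ℕ), μ (Z 0 ∪ Z i)ᶜ = 0 := by
        rintro i ⟨hi, hi0⟩
        rcases hZ1 0 i (fun h => hi0 h.symm) with h | h
        · exact absurd h hi
        · exact h
      intro i hi j hj hij
      show μ ((Z i)ᶜ ∩ (Z j)ᶜ) = 0
      rcases hZ1 i j hij with h | h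
      · exfalso
        refine hpos (Z 0)ᶜ (h2 _) ?_
        refine measure_mono_null (t := (Z 0 ∪ Z i)ᶜ ∪ (Z 0 ∪ Z j)ᶜ ∪ (Z i ∩ Z j)) ?_
          (measure_union_null (measure_union_null (hco i hi) (hco j hj)) h)
        intro x hx
        by_cases hxi : x ∈ Z i
        · by_cases hxj : x ∈ Z j
          · exact Or.inr ⟨hxi, hxj⟩
          · exact Or.inl (Or.inr fun h => h.elim hx hxj)
        · exact Or.inl (Or.inl fun h => h.elim hx hxi)
      · rwa [compl_union] at h

end Pool.Agent.H96.NSx
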