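import Pool.Agent.H96.NSx.Nest
import Pool.Agent.H81.NS.Prob
import Pool.Agent.H81.NS.Walls

open Set Filter Topology MeasureTheory Matrix

namespace Pool.Agent.H96.NSx

open Pool.Agent.H90.WC Pool.Agent.H81.TG Pool.Agent.H81.NS

theorem lam_one (X : Set (OnePoint ℂ)) : lam 1 X = mu.real X := by
  have h : act 1 ⁻¹' X = X := by
    ext x
    simp only [mem_preimage, act_one]
  unfold lam
  rw [h]
  rfl

theorem ds_eq (X Y : Set (OnePoint ℂ)) : ds X Y = mu.real (symmDiff X Y) := lam_one _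

theorem sub_iff (X Y : Set (OnePoint ℂ)) : Pool.Agent.H81.NS.Sub X Y ↔ mu (X \ Y) = 0 := by
  unfold Pool.Agent.H81.NS.Sub
  rw [lam_one, measureReal_def, ENNReal.toReal_eq_zero_iff]
  exact ⟨fun h => h.resolve_right (measure_ne_top _ _), Or.inl⟩

theorem nst_symm {X Y : Set (OnePoint ℂ)} (h : Nst mu X Y) : Nst mu Y X := by
  rcases h with h | h | h | h
  · exact Or.inr (Or.inl h)
  · exact Or.inl h
  · exact Or.inr (Or.inr (Or.inl (by rwa [inter_comm])))
  · exact Or.inr (Or.inr (Or.inr (by rwa [union_comm])))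

theorem mv_neg (f : G) (U : Set (OnePoint ℂ)) : mv (-f) U = mv f U := by
  ext x
  simp only [mv, mem_preimage]
  have h : (-f)⁻¹ = -f⁻¹ := by
    rw [inv_eq_iff_mul_eq_one, neg_mul_neg, mul_inv_cancel]
  rw [h, act_neg]

theorem wall_same (U : Set (OnePoint ℂ)) (f f' : G) (h : mv f' U = mv f U) (b b' : Bool) :
    Wl U f' b' = Wl U f b ∨ Wl U f' b' = (Wl U f b)ᶜ := by
  cases b <;> cases b'
  · left; rw [Wl_false, Wl_false, h]
  · right; rw [Wl_true, Wl_false, h, compl_compl]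
  · right; rw [Wl_true, Wl_false, h]
  · left; rw [Wl_true, Wl_true, h]

theorem wall_nst {Γ : Subgroup G} {K U : Set (OnePoint ℂ)} (h : Sep Γ K U) {f f' : G}
    (hf : f ∈ Γ) (hf' : f' ∈ Γ) (b b' : Bool) : Nst mu (Wl U f b) (Wl U f' b') := by
  by_cases h1 : f' = f ∨ f' = -f
  · have h2 : mv f' U = mv f U := by
      rcases h1 with h1 | h1
      · rw [h1]
      · rw [h1, mv_neg]
    rcases wall_same U f f' h2 b b' with h3 | h3
    · left; rw [h3, diff_self, measure_empty]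
    · right; right; left; rw [h3, inter_compl_self, measure_empty]
  · rw [not_or] at h1
    rcases wall_nest h hf hf' h1.1 h1.2 b b' with h3 | h3 | h3 | h3
    · left
      have h4 : Wl U f b ⊆ Wl U f' b' := (subset_closure.trans h3).trans interior_subset
      rw [diff_eq_empty.2 h4, measure_empty]
    · right; left
      have h4 : Wl U f' b' ⊆ Wl U f b := (subset_closure.trans h3).trans interior_subset
      rw [diff_eq_empty.2 h4, measure_empty]
    · right; right; left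
      have h4 : Wl U f b ⊆ (Wl U f' b')ᶜ := (subset_closure.trans h3).trans interior_subset
      rw [(disjoint_left.2 fun x hx hx' => h4 hx hx' : Disjoint _ _).inter_eq, measure_empty]
    · right; right; right
      have h4 : (Wl U f b)ᶜ ⊆ Wl U f' b' := (subset_closure.trans h3).trans interior_subset
      have h5 : (Wl U f b ∪ Wl U f' b')ᶜ = ∅ := by
        rw [compl_empty_iff, eq_univ_iff_forall]
        intro x
        by_cases hx : x ∈ Wl U f b
        · exact Or.inl hx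
        · exact Or.inr (h4 hx)
      rw [h5, measure_empty]

/-- any two leaves are nested -/
theorem leaf_nst {Γ : Subgroup G} {K U X Y : Set (OnePoint ℂ)} (h : Sep Γ K U)
    (hX : Lf Γ U X) (hY : Lf Γ U Y) : Nst mu X Y := by
  refine nst_of_lim fun ε hε => ?_
  obtain ⟨f, hf, b, h1⟩ := hX.lim ε hε
  obtain ⟨f', hf', b', h2⟩ := hY.lim ε hε
  rw [ds_eq] at h1 h2
  exact ⟨_, _, wall_nst h hf hf' b b', h1, h2⟩

theorem ds_tri (X Y Z : Set (OnePoint ℂ)) : ds X Z ≤ ds X Y + ds Y Z := by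
  rw [ds_eq, ds_eq, ds_eq]
  refine (measureReal_mono ?_ (measure_ne_top _ _)).trans (measureReal_union_le _ _)
  exact symmDiff_triangle X Y Z

theorem ds_comm (X Y : Set (OnePoint ℂ)) : ds X Y = ds Y X := by
  rw [ds_eq, ds_eq, symmDiff_comm]

theorem ds_compl (X Y : Set (OnePoint ℂ)) : ds Xᶜ Yᶜ = ds X Y := by
  rw [ds_eq, ds_eq, symm_compl]

theorem lam_le_ds (X Y : Set (OnePoint ℂ)) : lam 1 X ≤ lam 1 Y + ds X Y := by
  rw [ds_eq, lam_one, lam_one]
  have h1 : X ⊆ Y ∪ symmDiff X Y := by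
    intro x hx
    by_cases hy : x ∈ Y
    · exact Or.inl hy
    · exact Or.inr (Or.inl ⟨hx, hy⟩)
  exact (measureReal_mono h1 (measure_ne_top _ _)).trans (measureReal_union_le _ _)

/-- sequential compactness of the leaves of measure in `[c, 1 - c]` -/
theorem leaf_subseq {Γ : Subgroup G} {K U : Set (OnePoint ℂ)} (h : Sep Γ K U) {c : ℝ}
    (hc : 0 < c) (X : ℕ → Set (OnePoint ℂ)) (hX : ∀ n, Lf Γ U (X n))
    (h1 : ∀ n, c ≤ lam 1 (X n)) (h2 : ∀ n, c ≤ lam 1 (X n)ᶜ) :
    ∃ φ : ℕ → ℕ, StrictMono φ ∧ ∃ Y, Lf Γ U Y ∧ c ≤ lam 1 Y ∧ c ≤ lam 1 Yᶜ ∧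
      Tendsto (fun n => ds (X (φ n)) Y) atTop (𝓝 0) := by
  obtain ⟨φ, hφ, Y, hYm, hlim⟩ := subseq (μ := mu) hc X (fun n => (hX n).meas)
    (fun n => by rw [← lam_one]; exact h1 n) (fun n => by rw [← lam_one]; exact h2 n)
    (fun i j => leaf_nst h (hX i) (hX j))
  have hlim' : Tendsto (fun n => ds (X (φ n)) Y) atTop (𝓝 0) :=
    hlim.congr fun n => (ds_eq _ _).symm
  have hY1 : c ≤ lam 1 Y := by
    refine le_of_tendsto' (f := fun n => c - ds (X (φ n)) Y) (x := atTop)
      (by simpa using (tendsto_const_nhds (x := c)).sub hlim') fun n => ?_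
    have := lam_le_ds (X (φ n)) Y
    have := h1 (φ n)
    linarith
  have hY2 : c ≤ lam 1 Yᶜ := by
    refine le_of_tendsto' (f := fun n => c - ds (X (φ n)) Y) (x := atTop)
      (by simpa using (tendsto_const_nhds (x := c)).sub hlim') fun n => ?_
    have h3 := lam_le_ds (X (φ n))ᶜ Yᶜ
    rw [ds_compl] at h3
    have := h2 (φ n)
    linarith
  refine ⟨φ, hφ, Y, ⟨hYm, hc.trans_le hY1, hc.trans_le hY2, fun ε hε => ?_⟩, hY1, hY2, hlim'⟩
  obtain ⟨n, hn⟩ := (hlim'.eventually_lt_const (half_pos hε)).exists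
  obtain ⟨f, hf, b, hfb⟩ := (hX (φ n)).lim (ε / 2) (half_pos hε)
  refine ⟨f, hf, b, ?_⟩
  have h3 := ds_tri Y (X (φ n)) (Wl U f b)
  rw [ds_comm Y (X (φ n))] at h3
  linarith

end Pool.Agent.H96.NSx
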