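import Pool.Agent.H96.NSx.Cpt

open Set Filter Topology MeasureTheory

namespace Pool.Agent.H96.NSx

variable {α : Type*} [MeasurableSpace α] {μ : Measure α} [IsProbabilityMeasure μ]

/-- the four defects of nestedness; `b b'` choose `X` or its complement -/
theorem real_le {X Y W V : Set α} (h0 : μ (W ∩ V) = 0) :
    μ.real (X ∩ Y) ≤ μ.real (symmDiff X W) + μ.real (symmDiff Y V) := by
  have h1 : X ∩ Y ⊆ (symmDiff X W ∪ symmDiff Y V) ∪ (W ∩ V) := by
    rintro x ⟨hx, hy⟩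
    by_cases hw : x ∈ W
    · by_cases hv : x ∈ V
      · exact Or.inr ⟨hw, hv⟩
      · exact Or.inl (Or.inr (Or.inl ⟨hy, hv⟩))
    · exact Or.inl (Or.inl (Or.inl ⟨hx, hw⟩))
  calc μ.real (X ∩ Y) ≤ μ.real ((symmDiff X W ∪ symmDiff Y V) ∪ (W ∩ V)) :=
        measureReal_mono h1 (measure_ne_top _ _)
    _ ≤ μ.real (symmDiff X W ∪ symmDiff Y V) + μ.real (W ∩ V) := measureReal_union_le _ _
    _ = μ.real (symmDiff X W ∪ symmDiff Y V) := by
        rw [measureReal_def μ (W ∩ V), h0, ENNReal.toReal_zero, add_zero]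
    _ ≤ _ := measureReal_union_le _ _

theorem nst_close {X Y W V : Set α} {ε : ℝ} (h : Nst μ W V) (h1 : μ.real (symmDiff X W) < ε)
    (h2 : μ.real (symmDiff Y V) < ε) :
    μ.real (X \ Y) < 2 * ε ∨ μ.real (Y \ X) < 2 * ε ∨ μ.real (X ∩ Y) < 2 * ε ∨
      μ.real (X ∪ Y)ᶜ < 2 * ε := by
  rcases h with h | h | h | h
  · left
    have h3 := real_le (μ := μ) (X := X) (Y := Yᶜ) (W := W) (V := Vᶜ) h
    rw [symm_compl] at h3
    rw [diff_eq]
    linarith
  · right; left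
    have h3 := real_le (μ := μ) (X := Y) (Y := Xᶜ) (W := V) (V := Wᶜ) h
    rw [symm_compl] at h3
    rw [diff_eq]
    linarith
  · right; right; left
    have h3 := real_le (μ := μ) (X := X) (Y := Y) (W := W) (V := V) h
    linarith
  · right; right; right
    have h3 := real_le (μ := μ) (X := Xᶜ) (Y := Yᶜ) (W := Wᶜ) (V := Vᶜ)
      (by rwa [compl_union] at h)
    rw [symm_compl, symm_compl] at h3
    rw [compl_union]
    linarith

theorem nst_of_lim {X Y : Set α}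
    (h : ∀ ε > (0 : ℝ), ∃ W V, Nst μ W V ∧ μ.real (symmDiff X W) < ε ∧
      μ.real (symmDiff Y V) < ε) : Nst μ X Y := by
  by_contra hcon
  unfold Nst at hcon
  push Not at hcon
  obtain ⟨h1, h2, h3, h4⟩ := hcon
  have hp : ∀ A : Set α, μ A ≠ 0 → 0 < μ.real A := fun A hA =>
    ENNReal.toReal_pos hA (measure_ne_top _ _)
  have p1 := hp _ h1
  have p2 := hp _ h2
  have p3 := hp _ h3
  have p4 := hp _ h4
  set ε : ℝ := min (min (μ.real (X \ Y)) (μ.real (Y \ X)))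
    (min (μ.real (X ∩ Y)) (μ.real (X ∪ Y)ᶜ)) / 2 with hε
  have hε0 : 0 < ε := by
    rw [hε]
    have := lt_min (lt_min p1 p2) (lt_min p3 p4)
    linarith
  have e1 : 2 * ε ≤ μ.real (X \ Y) := by
    rw [hε]
    have := (min_le_left (min (μ.real (X \ Y)) (μ.real (Y \ X)))
      (min (μ.real (X ∩ Y)) (μ.real (X ∪ Y)ᶜ))).trans (min_le_left _ _)
    linarith
  have e2 : 2 * ε ≤ μ.real (Y \ X) := by
    rw [hε]
    have := (min_le_left (min (μ.real (X \ Y)) (μ.real (Y \ X)))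
      (min (μ.real (X ∩ Y)) (μ.real (X ∪ Y)ᶜ))).trans (min_le_right _ _)
    linarith
  have e3 : 2 * ε ≤ μ.real (X ∩ Y) := by
    rw [hε]
    have := (min_le_right (min (μ.real (X \ Y)) (μ.real (Y \ X)))
      (min (μ.real (X ∩ Y)) (μ.real (X ∪ Y)ᶜ))).trans (min_le_left _ _)
    linarith
  have e4 : 2 * ε ≤ μ.real (X ∪ Y)ᶜ := by
    rw [hε]
    have := (min_le_right (min (μ.real (X \ Y)) (μ.real (Y \ X)))
      (min (μ.real (X ∩ Y)) (μ.real (X ∪ Y)ᶜ))).trans (min_le_right _ _)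
    linarith
  obtain ⟨W, V, hWV, hX, hY⟩ := h ε hε0
  rcases nst_close hWV hX hY with h5 | h5 | h5 | h5 <;> linarith

end Pool.Agent.H96.NSx
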